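import Pool.Agent.U803.MW.Mean
import Pool.Agent.U803.EP.Det

/-!
# Randomly perturbed Weyl sums: the bound
-/

set_option autoImplicit false

namespace Pool.Agent.U803.MW

open MeasureTheory ProbabilityTheory Finset
open Pool.Agent.U160.VP

noncomputable section

/-- the mean of one term -/
def mnU (δ : ℕ → ℝ) (g : ℝ → ℝ) (n : ℕ) : ℂ := ∫ u in (0 : ℝ)..1, ee (g ((n : ℝ) + δ n * u))

/-- small deviations -/
def GdU (δ θ : ℕ → ℝ) (k B B' : ℕ) (ε : ℝ) (N : ℕ) : Prop :=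
  ∀ j1 j2 : ℤ, |j1| ≤ (N : ℤ) ^ B → |j2| ≤ (N : ℤ) ^ B →
    ‖∑ n ∈ Finset.Icc 1 N, (ee (wp k ((j1 : ℝ) / (N : ℝ) ^ B') ((j2 : ℝ) / (N : ℝ) ^ B') ((n : ℝ) + δ n * θ n)) -
      mnU δ (wp k ((j1 : ℝ) / (N : ℝ) ^ B') ((j2 : ℝ) / (N : ℝ) ^ B')) n)‖ ≤ (N : ℝ) ^ (1 / 2 + ε)

theorem ae_GdU {Ω : Type} [MeasurableSpace Ω] {μ : Measure Ω} [IsProbabilityMeasure μ] {X : ℕ → Ω → ℝ}
    (hX : ∀ n, Measurable (X n)) (hi : iIndepFun X μ)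
    (hl : ∀ n, μ.map (X n) = (volume : Measure ℝ).restrict (Set.Icc 0 1)) (δ : ℕ → ℝ) (k B B' : ℕ) {ε : ℝ}
    (hε : 0 < ε) : ∀ᵐ ω ∂μ, ∀ᶠ N : ℕ in Filter.atTop, GdU δ (fun n => X n ω) k B B' ε N := by
  have hφ : ∀ (N : ℕ) (i : ℤ × ℤ) (n : ℕ), Continuous fun x : ℝ =>
      ee (wp k ((i.1 : ℝ) / (N : ℝ) ^ B') ((i.2 : ℝ) / (N : ℝ) ^ B') ((n : ℝ) + δ n * x)) := by
    intro N i n
    exact pkgD_ee_cont.comp ((wp_cont _ _ _).comp (by fun_prop))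
  have h := ae_family (μ := μ) hX hi (ι := ℤ × ℤ)
    (fun N => Finset.Icc (-(N : ℤ) ^ B) ((N : ℤ) ^ B) ×ˢ Finset.Icc (-(N : ℤ) ^ B) ((N : ℤ) ^ B)) 9 (by norm_num)
    (2 * B) ?_ (fun N i n x => ee (wp k ((i.1 : ℝ) / (N : ℝ) ^ B') ((i.2 : ℝ) / (N : ℝ) ^ B') ((n : ℝ) + δ n * x)))
    (fun N i n => (hφ N i n).measurable) (fun N i n x => (pkgD_ee_norm _).le) hε
  · filter_upwards [h] with ω hω
    filter_upwards [hω] with N hN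
    intro j1 j2 hj1 hj2
    have h1 := hN (j1, j2) (by
      rw [mem_product, mem_Icc, mem_Icc]
      exact ⟨abs_le.1 hj1, abs_le.1 hj2⟩)
    refine le_trans (le_of_eq ?_) h1
    congr 1
    refine Finset.sum_congr rfl fun n _ => ?_
    congr 1
    unfold mnU
    simp only
    have h2 : ∫ ω', ee (wp k ((j1 : ℝ) / (N : ℝ) ^ B') ((j2 : ℝ) / (N : ℝ) ^ B') ((n : ℝ) + δ n * X n ω')) ∂μ =
        ∫ x, ee (wp k ((j1 : ℝ) / (N : ℝ) ^ B') ((j2 : ℝ) / (N : ℝ) ^ B') ((n : ℝ) + δ n * x)) ∂(μ.map (X n)) := by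
      rw [integral_map (hX n).aemeasurable (hφ N (j1, j2) n).aestronglyMeasurable]
    rw [h2, hl n, intervalIntegral.integral_of_le zero_le_one, integral_Icc_eq_integral_Ioc]
  · intro N hN
    have hN1 : (1 : ℝ) ≤ N := by exact_mod_cast hN
    rw [card_product, Int.card_Icc]
    have h1 : ((N : ℤ) ^ B + 1 - -(N : ℤ) ^ B).toNat = 2 * N ^ B + 1 := by
      have : ((N : ℤ) ^ B + 1 - -(N : ℤ) ^ B) = ((2 * N ^ B + 1 : ℕ) : ℤ) := by push_cast; ring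
      rw [this, Int.toNat_natCast]
    rw [h1]
    push_cast
    have h3 : (2 * (N : ℝ) ^ B + 1) ≤ 3 * (N : ℝ) ^ B := by
      have : (1 : ℝ) ≤ (N : ℝ) ^ B := one_le_pow₀ hN1
      linarith
    calc (2 * (N : ℝ) ^ B + 1) * (2 * (N : ℝ) ^ B + 1) ≤ (3 * (N : ℝ) ^ B) * (3 * (N : ℝ) ^ B) := by gcongr
      _ = 9 * (N : ℝ) ^ (2 * B) := by rw [two_mul B, pow_add]; ring

theorem norm_mnU_sub {δ : ℕ → ℝ} {f g : ℝ → ℝ} {n : ℕ} {E : ℝ} (hf : Continuous f) (hg : Continuous g)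
    (h : ∀ u ∈ Set.Icc (0 : ℝ) 1, |f ((n : ℝ) + δ n * u) - g ((n : ℝ) + δ n * u)| ≤ E) :
    ‖mnU δ f n - mnU δ g n‖ ≤ 2 * Real.pi * E := by
  unfold mnU
  have hc : ∀ {f : ℝ → ℝ}, Continuous f → Continuous fun u : ℝ => ee (f ((n : ℝ) + δ n * u)) := fun hf =>
    pkgD_ee_cont.comp (hf.comp (by fun_prop))
  rw [← intervalIntegral.integral_sub ((hc hf).intervalIntegrable _ _) ((hc hg).intervalIntegrable _ _)]
  have h1 := intervalIntegral.norm_integral_le_of_norm_le_const (a := (0 : ℝ)) (b := 1)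
    (f := fun u => ee (f ((n : ℝ) + δ n * u)) - ee (g ((n : ℝ) + δ n * u))) (C := 2 * Real.pi * E) (fun u hu => by
      rw [Set.uIoc_of_le zero_le_one] at hu
      exact (Pool.Agent.U803.EP.norm_ee_sub_le _ _).trans
        (mul_le_mul_of_nonneg_left (h u ⟨hu.1.le, hu.2⟩) (by positivity)))
  simpa using h1

/-- the sum, without the final inequality -/
theorem raw {δ θ : ℕ → ℝ} (hθ : ∀ n, θ n ∈ Set.Icc (0 : ℝ) 1) {κ : ℝ}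
    (hδ : ∀ n : ℕ, 1 ≤ n → (n : ℝ) ^ (-κ) ≤ δ n ∧ δ n ≤ 1) {m A N q M : ℕ} (hκ : κ ≤ m) {ε : ℝ}
    (hG : GdU δ θ (m + 2) (A + (m + 3) + 1) (m + 3) ε N) (hN : 3 ≤ N) (hM : 1 ≤ M) (hq : 1 ≤ q) {t ξ : ℝ}
    (ht : 1 / (2 * (q : ℝ)) ≤ t) (ht2 : t ≤ 2) (hξ : |ξ| ≤ (N : ℝ) ^ A) :
    ‖∑ n ∈ Finset.Icc 1 N, ee (wp (m + 2) t ξ ((n : ℝ) + δ n * θ n))‖ ≤
      (N : ℝ) ^ (1 / 2 + ε) + 16 * 2 ^ (m + 3) +
        (M + (3 + 16 * q * (M : ℝ) ^ (κ - m)) * (2 * (1 + Real.log (N + 1)))) := by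
  have hpi := Real.pi_pos
  have hpi4 : Real.pi ≤ 4 := Real.pi_le_four
  have hN0 : (0 : ℝ) < N := by exact_mod_cast (by omega : 0 < N)
  have hN3 : (3 : ℝ) ≤ N := by exact_mod_cast hN
  have hN1 : (1 : ℝ) ≤ N := by linarith
  have hq0 : (0 : ℝ) < q := by exact_mod_cast hq
  have ht0 : 0 < t := lt_of_lt_of_le (by positivity) ht
  obtain ⟨P, hP⟩ : ∃ P : ℝ, P = (N : ℝ) ^ (m + 3) := ⟨_, rfl⟩
  have hP0 : 0 < P := by rw [hP]; positivity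
  have hP1 : 1 ≤ P := by rw [hP]; exact one_le_pow₀ hN1
  have hfl : ∀ z : ℝ, |z - (⌊z * P⌋ : ℝ) / P| ≤ 1 / P := by
    intro z
    have h6 : z - (⌊z * P⌋ : ℝ) / P = (z * P - ⌊z * P⌋) / P := by field_simp
    rw [h6, abs_div, abs_of_pos hP0]
    refine div_le_div_of_nonneg_right ?_ hP0.le
    rw [abs_le]
    constructor
    · linarith [Int.floor_le (z * P)]
    · linarith [Int.lt_floor_add_one (z * P)]
  have hfa : ∀ z R : ℝ, |z| ≤ R → |((⌊z * P⌋ : ℤ) : ℝ)| ≤ R * P + 1 := by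
    intro z R hz
    have h1 := abs_le.1 hz
    have h2 : z * P ≤ R * P := mul_le_mul_of_nonneg_right h1.2 hP0.le
    have h3 : -R * P ≤ z * P := mul_le_mul_of_nonneg_right h1.1 hP0.le
    rw [abs_le]
    constructor
    · linarith [Int.lt_floor_add_one (z * P)]
    · linarith [Int.floor_le (z * P)]
  have hB : ∀ z : ℝ, |z| ≤ 2 * (N : ℝ) ^ A → |⌊z * P⌋| ≤ (N : ℤ) ^ (A + (m + 3) + 1) := by
    intro z hz
    have h1 := hfa z _ hz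
    have h2 : (1 : ℝ) ≤ (N : ℝ) ^ A * P := by
      have : (1 : ℝ) ≤ (N : ℝ) ^ A := one_le_pow₀ hN1
      nlinarith
    have h3 : |((⌊z * P⌋ : ℤ) : ℝ)| ≤ (N : ℝ) ^ (A + (m + 3) + 1) := by
      calc _ ≤ 2 * (N : ℝ) ^ A * P + 1 := h1
        _ ≤ 3 * ((N : ℝ) ^ A * P) := by linarith
        _ ≤ N * ((N : ℝ) ^ A * P) := mul_le_mul_of_nonneg_right hN3 (by positivity)
        _ = _ := by rw [hP]; ring
    exact_mod_cast h3
  have hNA : (1 : ℝ) ≤ (N : ℝ) ^ A := one_le_pow₀ hN1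
  have hj1 := hB t (by rw [abs_of_pos ht0]; linarith)
  have hj2 := hB ξ (by linarith)
  have hg := hG _ _ hj1 hj2
  rw [← hP] at hg
  obtain ⟨t', ht'⟩ : ∃ t' : ℝ, t' = (⌊t * P⌋ : ℝ) / P := ⟨_, rfl⟩
  obtain ⟨ξ', hξ'⟩ : ∃ ξ' : ℝ, ξ' = (⌊ξ * P⌋ : ℝ) / P := ⟨_, rfl⟩
  have htt : |t - t'| ≤ 1 / P := by rw [ht']; exact hfl t
  have hξξ : |ξ - ξ'| ≤ 1 / P := by rw [hξ']; exact hfl ξ
  rw [← ht', ← hξ'] at hg
  have hclose : ∀ n ∈ Finset.Icc 1 N, ∀ u ∈ Set.Icc (0 : ℝ) 1,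
      |wp (m + 2) t ξ ((n : ℝ) + δ n * u) - wp (m + 2) t' ξ' ((n : ℝ) + δ n * u)| ≤ 2 ^ (m + 3) / N := by
    intro n hn u hu
    rw [mem_Icc] at hn
    have hn1 : (1 : ℝ) ≤ n := by exact_mod_cast hn.1
    have hn2 : (n : ℝ) ≤ N := by exact_mod_cast hn.2
    have hd := hδ n hn.1
    have hd0 : 0 ≤ δ n := le_trans (by positivity) hd.1
    have hdu : δ n * u ≤ 1 := by
      calc δ n * u ≤ 1 * 1 := mul_le_mul hd.2 hu.2 hu.1 zero_le_one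
        _ = 1 := one_mul 1
    have hdu0 : 0 ≤ δ n * u := mul_nonneg hd0 hu.1
    obtain ⟨x, hx⟩ : ∃ x : ℝ, x = (n : ℝ) + δ n * u := ⟨_, rfl⟩
    rw [← hx]
    have hx1 : 1 ≤ x := by rw [hx]; linarith
    have hx2 : x ≤ 2 * N := by rw [hx]; linarith
    have hx0 : 0 ≤ x := by linarith
    have h1 : wp (m + 2) t ξ x - wp (m + 2) t' ξ' x = (t - t') * x ^ (m + 2) + (ξ - ξ') * x := by
      unfold wp; ring
    rw [h1]
    have h2 : x ≤ x ^ (m + 2) := le_self_pow₀ hx1 (by omega)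
    have h3 : x ^ (m + 2) ≤ (2 * (N : ℝ)) ^ (m + 2) := pow_le_pow_left₀ hx0 hx2 _
    calc |(t - t') * x ^ (m + 2) + (ξ - ξ') * x| ≤ |(t - t') * x ^ (m + 2)| + |(ξ - ξ') * x| := abs_add_le _ _
      _ = |t - t'| * x ^ (m + 2) + |ξ - ξ'| * x := by
          rw [abs_mul, abs_mul, abs_of_nonneg hx0, abs_of_nonneg (by positivity : 0 ≤ x ^ (m + 2))]
      _ ≤ 1 / P * (2 * (N : ℝ)) ^ (m + 2) + 1 / P * (2 * (N : ℝ)) ^ (m + 2) := by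
          refine add_le_add ?_ ?_
          · gcongr
          · exact mul_le_mul hξξ (h2.trans h3) hx0 (by positivity)
      _ = 2 ^ (m + 3) / N := by
          rw [hP, mul_pow]
          field_simp
          ring
  have hs1 : ‖∑ n ∈ Finset.Icc 1 N, (ee (wp (m + 2) t ξ ((n : ℝ) + δ n * θ n)) -
      ee (wp (m + 2) t' ξ' ((n : ℝ) + δ n * θ n)))‖ ≤ 8 * 2 ^ (m + 3) := by
    refine (norm_sum_le _ _).trans ?_
    have h1 : ∀ n ∈ Finset.Icc 1 N, ‖ee (wp (m + 2) t ξ ((n : ℝ) + δ n * θ n)) -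
      ee (wp (m + 2) t' ξ' ((n : ℝ) + δ n * θ n))‖ ≤ 8 * (2 ^ (m + 3) / N) := by
      intro n hn
      refine (Pool.Agent.U803.EP.norm_ee_sub_le _ _).trans ?_
      have h2 := hclose n hn _ (hθ n)
      have h3 : 2 * Real.pi ≤ 8 := by linarith
      exact mul_le_mul h3 h2 (abs_nonneg _) (by norm_num)
    refine (sum_le_card_nsmul _ _ _ h1).trans (le_of_eq ?_)
    rw [Nat.card_Icc, nsmul_eq_mul, Nat.add_sub_cancel]
    field_simp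
  have hs2 : ‖∑ n ∈ Finset.Icc 1 N, (mnU δ (wp (m + 2) t ξ) n - mnU δ (wp (m + 2) t' ξ') n)‖ ≤ 8 * 2 ^ (m + 3) := by
    refine (norm_sum_le _ _).trans ?_
    have h1 : ∀ n ∈ Finset.Icc 1 N, ‖mnU δ (wp (m + 2) t ξ) n - mnU δ (wp (m + 2) t' ξ') n‖ ≤
        8 * (2 ^ (m + 3) / N) := by
      intro n hn
      refine (norm_mnU_sub (wp_cont _ _ _) (wp_cont _ _ _) (hclose n hn)).trans ?_
      have h3 : 2 * Real.pi ≤ 8 := by linarith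
      exact mul_le_mul_of_nonneg_right h3 (by positivity)
    refine (sum_le_card_nsmul _ _ _ h1).trans (le_of_eq ?_)
    rw [Nat.card_Icc, nsmul_eq_mul, Nat.add_sub_cancel]
    field_simp
  have hs3 : ‖∑ n ∈ Finset.Icc 1 N, mnU δ (wp (m + 2) t ξ) n‖ ≤
      M + (3 + 16 * q * (M : ℝ) ^ (κ - m)) * (2 * (1 + Real.log (N + 1))) :=
    (norm_sum_le _ _).trans (sum_mean hq ht hδ hκ hM)
  have hdec : ∑ n ∈ Finset.Icc 1 N, ee (wp (m + 2) t ξ ((n : ℝ) + δ n * θ n)) =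
      (∑ n ∈ Finset.Icc 1 N, (ee (wp (m + 2) t ξ ((n : ℝ) + δ n * θ n)) -
        ee (wp (m + 2) t' ξ' ((n : ℝ) + δ n * θ n)))) +
      (∑ n ∈ Finset.Icc 1 N, (ee (wp (m + 2) t' ξ' ((n : ℝ) + δ n * θ n)) - mnU δ (wp (m + 2) t' ξ') n)) -
      (∑ n ∈ Finset.Icc 1 N, (mnU δ (wp (m + 2) t ξ) n - mnU δ (wp (m + 2) t' ξ') n)) +
      ∑ n ∈ Finset.Icc 1 N, mnU δ (wp (m + 2) t ξ) n := by
    simp only [Finset.sum_sub_distrib]
    ring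
  rw [hdec]
  refine (norm_add_le _ _).trans ?_
  have h5 := (norm_sub_le ((∑ n ∈ Finset.Icc 1 N, (ee (wp (m + 2) t ξ ((n : ℝ) + δ n * θ n)) -
        ee (wp (m + 2) t' ξ' ((n : ℝ) + δ n * θ n)))) +
      (∑ n ∈ Finset.Icc 1 N, (ee (wp (m + 2) t' ξ' ((n : ℝ) + δ n * θ n)) - mnU δ (wp (m + 2) t' ξ') n)))
      (∑ n ∈ Finset.Icc 1 N, (mnU δ (wp (m + 2) t ξ) n - mnU δ (wp (m + 2) t' ξ') n)))
  have h6 := norm_add_le (∑ n ∈ Finset.Icc 1 N, (ee (wp (m + 2) t ξ ((n : ℝ) + δ n * θ n)) -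
        ee (wp (m + 2) t' ξ' ((n : ℝ) + δ n * θ n))))
      (∑ n ∈ Finset.Icc 1 N, (ee (wp (m + 2) t' ξ' ((n : ℝ) + δ n * θ n)) - mnU δ (wp (m + 2) t' ξ') n))
  linarith

end

end Pool.Agent.U803.MW
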