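import Pool.Agent.U803.MW.Det

/-!
# Randomly perturbed Weyl sums: the final inequality
-/

set_option autoImplicit false

namespace Pool.Agent.U803.MW

open MeasureTheory ProbabilityTheory Finset
open Pool.Agent.U160.VP

noncomputable section

theorem final {δ θ : ℕ → ℝ} (hθ : ∀ n, θ n ∈ Set.Icc (0 : ℝ) 1) {κ η : ℝ}
    (hδ : ∀ n : ℕ, 1 ≤ n → (n : ℝ) ^ (-κ) ≤ δ n ∧ δ n ≤ 1) {m : ℕ} (hη0 : 0 ≤ η) (hη : η ≤ 1 / 2)
    (hκ : 1 ≤ ((m : ℝ) + 1 - κ) * (1 - η))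
    (hG : ∀ B B' r : ℕ, ∀ᶠ N : ℕ in Filter.atTop, GdU δ θ (m + 2) B B' (1 / ((r : ℝ) + 1)) N) :
    ∀ A : ℕ, ∀ ε : ℝ, 0 < ε → ∃ C : ℝ, 0 < C ∧ ∀ N : ℕ, 1 ≤ N → ∀ t ξ : ℝ, |ξ| ≤ (N : ℝ) ^ A →
      ∀ a q : ℕ, 1 ≤ a → a < q → q ≤ N → |t - (a : ℝ) / q| ≤ 1 / (q : ℝ) ^ 2 →
      ‖∑ n ∈ Finset.Icc 1 N, ee (wp (m + 2) t ξ ((n : ℝ) + δ n * θ n))‖ ≤
        C * (N : ℝ) ^ (1 + ε) * (1 / (q : ℝ) + 1 / (N : ℝ) + (q : ℝ) / (N : ℝ) ^ (m + 2)) ^ η := by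
  intro A ε hε
  obtain ⟨r, hr⟩ : ∃ r : ℕ, 1 / ((r : ℝ) + 1) ≤ ε := by
    obtain ⟨r, hr⟩ := exists_nat_one_div_lt hε
    exact ⟨r, hr.le⟩
  obtain ⟨N0, hN0⟩ := Filter.eventually_atTop.1 (hG (A + (m + 3) + 1) (m + 3) r)
  obtain ⟨s, hs⟩ : ∃ s : ℝ, s = 1 / ((m : ℝ) + 1 - κ) := ⟨_, rfl⟩
  have h1η : 0 < 1 - η := by linarith
  have hd0 : 0 < (m : ℝ) + 1 - κ := by
    by_contra h
    push Not at h
    have : ((m : ℝ) + 1 - κ) * (1 - η) ≤ 0 := mul_nonpos_of_nonpos_of_nonneg h h1η.le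
    linarith
  have hd1 : 1 ≤ (m : ℝ) + 1 - κ := by
    have : ((m : ℝ) + 1 - κ) * (1 - η) ≤ ((m : ℝ) + 1 - κ) * 1 := mul_le_mul_of_nonneg_left (by linarith) hd0.le
    linarith
  have hκm : κ ≤ m := by linarith
  have hs0 : 0 < s := by rw [hs]; positivity
  have hsη : s + η ≤ 1 := by
    have : s ≤ 1 - η := by
      rw [hs, div_le_iff₀ hd0]
      linarith
    linarith
  obtain ⟨C1, hC1⟩ : ∃ C1 : ℝ, C1 = 1 + 16 * 2 ^ (m + 3) + 40 * (1 + 2 ^ ε / ε) := ⟨_, rfl⟩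
  have hC10 : 0 < C1 := by rw [hC1]; positivity
  refine ⟨C1 + (N0 + 3), by positivity, fun N hN t ξ hξ a q ha haq hqN hta => ?_⟩
  have hq2 : 2 ≤ q := by omega
  have hq0 : (0 : ℝ) < q := by exact_mod_cast (by omega : 0 < q)
  have hq2' : (2 : ℝ) ≤ q := by exact_mod_cast hq2
  have hq1 : (1 : ℝ) ≤ q := by linarith
  have hN1 : (1 : ℝ) ≤ N := by exact_mod_cast hN
  have hNp : (0 : ℝ) < N := by linarith
  have hqN' : (q : ℝ) ≤ N := by exact_mod_cast hqN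
  -- the comparison quantity
  obtain ⟨W, hW⟩ : ∃ W : ℝ, W = (N : ℝ) * (q : ℝ) ^ (-η) := ⟨_, rfl⟩
  have hWle : W ≤ (N : ℝ) * (1 / (q : ℝ) + 1 / (N : ℝ) + (q : ℝ) / (N : ℝ) ^ (m + 2)) ^ η := by
    rw [hW]
    refine mul_le_mul_of_nonneg_left ?_ hNp.le
    rw [Real.rpow_neg hq0.le, ← Real.inv_rpow hq0.le]
    refine Real.rpow_le_rpow (by positivity) ?_ hη0
    rw [← one_div]
    have : 0 ≤ 1 / (N : ℝ) + (q : ℝ) / (N : ℝ) ^ (m + 2) := by positivity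
    linarith
  have hqη : (q : ℝ) ^ η ≤ (N : ℝ) ^ (1 / 2 : ℝ) := by
    calc (q : ℝ) ^ η ≤ (q : ℝ) ^ (1 / 2 : ℝ) := Real.rpow_le_rpow_of_exponent_le hq1 hη
      _ ≤ _ := Real.rpow_le_rpow hq0.le hqN' (by norm_num)
  have hqηp : 0 < (q : ℝ) ^ η := by positivity
  have hNh : (N : ℝ) = (N : ℝ) ^ (1 / 2 : ℝ) * (N : ℝ) ^ (1 / 2 : ℝ) := by
    rw [← Real.rpow_add hNp]; norm_num
  have hWhalf : (N : ℝ) ^ (1 / 2 : ℝ) ≤ W := by
    rw [hW, Real.rpow_neg hq0.le, ← div_eq_mul_inv, le_div_iff₀ hqηp]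
    calc (N : ℝ) ^ (1 / 2 : ℝ) * (q : ℝ) ^ η ≤ (N : ℝ) ^ (1 / 2 : ℝ) * (N : ℝ) ^ (1 / 2 : ℝ) :=
          mul_le_mul_of_nonneg_left hqη (by positivity)
      _ = N := hNh.symm
  have hW1 : 1 ≤ W := (Real.one_le_rpow hN1 (by norm_num)).trans hWhalf
  have hNε : 1 ≤ (N : ℝ) ^ ε := Real.one_le_rpow hN1 hε.le
  have hN1ε : (N : ℝ) ^ (1 + ε) = N * (N : ℝ) ^ ε := by rw [Real.rpow_add hNp, Real.rpow_one]
  have hfin : ∀ S C : ℝ, 0 ≤ C → S ≤ C * (N : ℝ) ^ ε * W →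
      S ≤ C * (N : ℝ) ^ (1 + ε) * (1 / (q : ℝ) + 1 / (N : ℝ) + (q : ℝ) / (N : ℝ) ^ (m + 2)) ^ η := by
    intro S C hC hS
    refine hS.trans ?_
    calc C * (N : ℝ) ^ ε * W ≤ C * (N : ℝ) ^ ε *
          ((N : ℝ) * (1 / (q : ℝ) + 1 / (N : ℝ) + (q : ℝ) / (N : ℝ) ^ (m + 2)) ^ η) :=
          mul_le_mul_of_nonneg_left hWle (by positivity)
      _ = _ := by rw [hN1ε]; ring
  refine hfin _ _ (by positivity) ?_
  have hNW : 1 ≤ (N : ℝ) ^ ε * W := by nlinarith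
  have htriv : ‖∑ n ∈ Finset.Icc 1 N, ee (wp (m + 2) t ξ ((n : ℝ) + δ n * θ n))‖ ≤ N := by
    refine (norm_sum_le _ _).trans ?_
    simp only [pkgD_ee_norm, Finset.sum_const, Nat.card_Icc, nsmul_eq_mul, mul_one, Nat.add_sub_cancel]
    exact le_rfl
  by_cases hNN : N < N0 + 3
  · have h1 : (N : ℝ) ≤ N0 + 3 := by exact_mod_cast hNN.le
    calc _ ≤ (N : ℝ) := htriv
      _ ≤ (N0 + 3) * 1 := by linarith
      _ ≤ (N0 + 3) * ((N : ℝ) ^ ε * W) := mul_le_mul_of_nonneg_left hNW (by positivity)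
      _ ≤ (C1 + (N0 + 3)) * ((N : ℝ) ^ ε * W) := by
          refine mul_le_mul_of_nonneg_right (by linarith) (by positivity)
      _ = _ := by ring
  · push Not at hNN
    have hg := hN0 N (by omega)
    have hta' := abs_le.1 hta
    have ht : 1 / (2 * (q : ℝ)) ≤ t := by
      have ha1 : (1 : ℝ) ≤ a := by exact_mod_cast ha
      have h1 : 1 / (q : ℝ) ≤ (a : ℝ) / q := div_le_div_of_nonneg_right ha1 hq0.le
      have h2 : 1 / (q : ℝ) ^ 2 ≤ 1 / (2 * (q : ℝ)) := by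
        apply one_div_le_one_div_of_le (by positivity)
        nlinarith
      have h3 : 1 / (q : ℝ) = 1 / (2 * (q : ℝ)) + 1 / (2 * (q : ℝ)) := by field_simp; norm_num
      linarith [hta'.1]
    have ht2 : t ≤ 2 := by
      have h1 : (a : ℝ) / q ≤ 1 := by
        rw [div_le_one hq0]
        exact_mod_cast haq.le
      have h2 : 1 / (q : ℝ) ^ 2 ≤ 1 := by
        rw [div_le_one (by positivity)]
        nlinarith
      linarith [hta'.2]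
    obtain ⟨Q, hQ⟩ : ∃ Q : ℝ, Q = (q : ℝ) ^ s := ⟨_, rfl⟩
    have hQ1 : 1 ≤ Q := by rw [hQ]; exact Real.one_le_rpow hq1 hs0.le
    have hQ0 : 0 < Q := by linarith
    have hQW : Q ≤ W := by
      rw [hW, Real.rpow_neg hq0.le, ← div_eq_mul_inv, le_div_iff₀ hqηp, hQ, ← Real.rpow_add hq0]
      calc (q : ℝ) ^ (s + η) ≤ (q : ℝ) ^ (1 : ℝ) := Real.rpow_le_rpow_of_exponent_le hq1 hsη
        _ = q := Real.rpow_one _
        _ ≤ N := hqN'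
    obtain ⟨M, hM⟩ : ∃ M : ℕ, M = ⌈Q⌉₊ := ⟨_, rfl⟩
    have hMQ : Q ≤ M := by rw [hM]; exact Nat.le_ceil Q
    have hMQ2 : (M : ℝ) ≤ 2 * Q := by
      have := Nat.ceil_lt_add_one hQ0.le
      rw [hM]
      linarith
    have hM1 : 1 ≤ M := by
      have : (1 : ℝ) ≤ M := hQ1.trans hMQ
      exact_mod_cast this
    have hraw := raw hθ hδ hκm hg (by omega) hM1 (by omega : 1 ≤ q) ht ht2 hξ
    refine hraw.trans ?_
    have hqM : (q : ℝ) * (M : ℝ) ^ (κ - m) ≤ Q := by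
      have h1 : (M : ℝ) ^ (κ - m) ≤ Q ^ (κ - m) := Real.rpow_le_rpow_of_nonpos hQ0 hMQ (by linarith)
      have h2 : Q ^ (κ - m) = (q : ℝ) ^ (s * (κ - m)) := by rw [hQ, Real.rpow_mul hq0.le]
      have h3 : 1 + s * (κ - m) = s := by
        rw [hs]
        field_simp
        ring
      calc (q : ℝ) * (M : ℝ) ^ (κ - m) ≤ q * Q ^ (κ - m) := mul_le_mul_of_nonneg_left h1 hq0.le
        _ = (q : ℝ) ^ (1 : ℝ) * (q : ℝ) ^ (s * (κ - m)) := by rw [h2, Real.rpow_one]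
        _ = Q := by rw [← Real.rpow_add hq0, h3, hQ]
    have hlog : 1 + Real.log (N + 1) ≤ (1 + 2 ^ ε / ε) * (N : ℝ) ^ ε := by
      have h1 := Real.log_le_rpow_div (by positivity : (0 : ℝ) ≤ (N : ℝ) + 1) hε
      have h2 : ((N : ℝ) + 1) ^ ε ≤ 2 ^ ε * (N : ℝ) ^ ε := by
        rw [← Real.mul_rpow (by norm_num) hNp.le]
        exact Real.rpow_le_rpow (by positivity) (by linarith) hε.le
      have h3 : ((N : ℝ) + 1) ^ ε / ε ≤ 2 ^ ε * (N : ℝ) ^ ε / ε := div_le_div_of_nonneg_right h2 hε.le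
      calc 1 + Real.log (N + 1) ≤ (N : ℝ) ^ ε + 2 ^ ε * (N : ℝ) ^ ε / ε := by linarith
        _ = _ := by ring
    have hlog0 : 0 ≤ 1 + Real.log ((N : ℝ) + 1) := by
      have := Real.log_nonneg (by linarith : (1 : ℝ) ≤ (N : ℝ) + 1)
      linarith
    have e1 : (N : ℝ) ^ (1 / 2 + 1 / ((r : ℝ) + 1)) ≤ (N : ℝ) ^ ε * W := by
      calc (N : ℝ) ^ (1 / 2 + 1 / ((r : ℝ) + 1)) ≤ (N : ℝ) ^ (1 / 2 + ε) :=
            Real.rpow_le_rpow_of_exponent_le hN1 (by linarith)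
        _ = (N : ℝ) ^ (1 / 2 : ℝ) * (N : ℝ) ^ ε := Real.rpow_add hNp _ _
        _ ≤ W * (N : ℝ) ^ ε := mul_le_mul_of_nonneg_right hWhalf (by positivity)
        _ = _ := mul_comm _ _
    have e2 : (M : ℝ) + (3 + 16 * q * (M : ℝ) ^ (κ - m)) * (2 * (1 + Real.log (N + 1))) ≤
        40 * Q * (1 + Real.log (N + 1)) := by
      have h1 : 3 + 16 * q * (M : ℝ) ^ (κ - m) ≤ 19 * Q := by nlinarith
      have h2 : (3 + 16 * q * (M : ℝ) ^ (κ - m)) * (2 * (1 + Real.log (N + 1))) ≤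
          19 * Q * (2 * (1 + Real.log (N + 1))) := mul_le_mul_of_nonneg_right h1 (by positivity)
      have h3 : 2 * Q ≤ 2 * Q * (1 + Real.log (N + 1)) := by
        have := Real.log_nonneg (by linarith : (1 : ℝ) ≤ (N : ℝ) + 1)
        nlinarith
      linarith
    have e3 : 40 * Q * (1 + Real.log (N + 1)) ≤ 40 * (1 + 2 ^ ε / ε) * ((N : ℝ) ^ ε * W) := by
      calc 40 * Q * (1 + Real.log (N + 1)) ≤ 40 * W * ((1 + 2 ^ ε / ε) * (N : ℝ) ^ ε) := by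
            refine mul_le_mul ?_ hlog hlog0 (by positivity)
            linarith
        _ = _ := by ring
    have e4 : 16 * (2 : ℝ) ^ (m + 3) ≤ 16 * 2 ^ (m + 3) * ((N : ℝ) ^ ε * W) := by
      have : (0 : ℝ) ≤ 16 * 2 ^ (m + 3) := by positivity
      nlinarith
    calc _ ≤ (N : ℝ) ^ ε * W + 16 * 2 ^ (m + 3) * ((N : ℝ) ^ ε * W) +
          40 * (1 + 2 ^ ε / ε) * ((N : ℝ) ^ ε * W) := by linarith
      _ = C1 * ((N : ℝ) ^ ε * W) := by rw [hC1]; ring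
      _ ≤ (C1 + (N0 + 3)) * ((N : ℝ) ^ ε * W) := by
          refine mul_le_mul_of_nonneg_right ?_ (by positivity)
          have : (0 : ℝ) ≤ N0 := by positivity
          linarith
      _ = _ := by ring

end

end Pool.Agent.U803.MW
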