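import Pool.Agent.U803.MW.Prob
import Pool.Agent.U160.VP.PkgD
import Pool.Agent.Helper276.VdC

/-!
# The mean of a randomly perturbed Weyl sum
-/

set_option autoImplicit false

namespace Pool.Agent.U803.MW

open MeasureTheory ProbabilityTheory Finset
open Pool.Agent.U160.VP

noncomputable section

/-- the phase -/
def wp (k : ℕ) (t ξ x : ℝ) : ℝ := t * x ^ k + ξ * x

theorem ee_eq (x : ℝ) : ee x = Complex.exp (Complex.I * ((2 * Real.pi * x : ℝ) : ℂ)) := by
  unfold ee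
  congr 1
  push_cast
  ring

theorem wp_cont (k : ℕ) (t ξ : ℝ) : Continuous (wp k t ξ) := by
  unfold wp
  fun_prop

/-- the mean of one term -/
theorem mean_term {t ξ δ y : ℝ} {m n : ℕ} (ht : 0 < t) (hδ : 0 < δ) (hδ1 : δ ≤ 1) (hn : 1 ≤ n)
    (hy : ∀ x : ℝ, (n : ℝ) ≤ x → x ≤ n + 1 → ((m : ℝ) + 2) * t * |x - y| * x ^ m ≤
      |((m : ℝ) + 2) * t * x ^ (m + 1) + ξ|) (hny : 2 ≤ |(n : ℝ) - y|) :
    ‖∫ u in (0 : ℝ)..1, ee (wp (m + 2) t ξ ((n : ℝ) + δ * u))‖ ≤ 4 / (δ * t * |(n : ℝ) - y| * (n : ℝ) ^ m) := by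
  have hn0 : (0 : ℝ) < n := by exact_mod_cast hn
  have hpi := Real.pi_gt_three
  simp only [ee_eq]
  refine Pool.Agent.Helper276.VdC.first_test (ψ := fun u => 2 * Real.pi * wp (m + 2) t ξ ((n : ℝ) + δ * u))
    (ψ1 := fun u => 2 * Real.pi * (δ * (((m : ℝ) + 2) * t * ((n : ℝ) + δ * u) ^ (m + 1) + ξ)))
    (ψ2 := fun u => 2 * Real.pi * (δ * (((m : ℝ) + 2) * t * (((m : ℝ) + 1) * ((n : ℝ) + δ * u) ^ m * δ))))
    zero_le_one (by positivity) ?_ ?_ ?_ ?_ ?_
  · intro u _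
    have h1 : HasDerivAt (fun u : ℝ => (n : ℝ) + δ * u) δ u := by
      simpa using ((hasDerivAt_id u).const_mul δ).const_add (n : ℝ)
    have h2 := (((h1.pow (m + 2)).const_mul t).add (h1.const_mul ξ)).const_mul (2 * Real.pi)
    refine h2.congr_deriv ?_
    push_cast
    ring
  · intro u _
    have h1 : HasDerivAt (fun u : ℝ => (n : ℝ) + δ * u) δ u := by
      simpa using ((hasDerivAt_id u).const_mul δ).const_add (n : ℝ)
    have h2 := ((((h1.pow (m + 1)).const_mul (((m : ℝ) + 2) * t)).add_const ξ).const_mul δ).const_mul (2 * Real.pi)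
    refine h2.congr_deriv ?_
    push_cast
    rfl
  · fun_prop
  · intro u hu
    have hu0 : 0 ≤ δ * u := mul_nonneg hδ.le hu.1
    positivity
  · intro u hu
    have hu0 : 0 ≤ δ * u := mul_nonneg hδ.le hu.1
    have hu1 : δ * u ≤ 1 := by
      calc δ * u ≤ 1 * 1 := mul_le_mul hδ1 hu.2 hu.1 zero_le_one
        _ = 1 := one_mul 1
    have h1 := hy ((n : ℝ) + δ * u) (by linarith) (by linarith)
    have h2 : |(n : ℝ) - y| / 2 ≤ |(n : ℝ) + δ * u - y| := by
      have h3 : |(n : ℝ) - y| ≤ |(n : ℝ) + δ * u - y| + |δ * u| := by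
        have := abs_sub (n + δ * u - y) (δ * u)
        rw [show (n : ℝ) + δ * u - y - δ * u = n - y by ring] at this
        exact this
      rw [abs_of_nonneg hu0] at h3
      linarith
    have h4 : (n : ℝ) ^ m ≤ ((n : ℝ) + δ * u) ^ m := pow_le_pow_left₀ hn0.le (by linarith) m
    have h5 : ((m : ℝ) + 2) * t * (|(n : ℝ) - y| / 2) * (n : ℝ) ^ m ≤
        |((m : ℝ) + 2) * t * ((n : ℝ) + δ * u) ^ (m + 1) + ξ| := by
      refine le_trans ?_ h1
      gcongr
    rw [abs_mul (2 * Real.pi), abs_mul δ, abs_of_pos hδ, abs_of_pos (by positivity : (0 : ℝ) < 2 * Real.pi)]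
    have h6 : t * |(n : ℝ) - y| * (n : ℝ) ^ m ≤ ((m : ℝ) + 2) * t * (|(n : ℝ) - y| / 2) * (n : ℝ) ^ m := by
      have h7 : 0 ≤ t * |(n : ℝ) - y| * (n : ℝ) ^ m := by positivity
      have h8 : (0 : ℝ) ≤ m := by positivity
      nlinarith
    have h9 : 0 ≤ δ * |((m : ℝ) + 2) * t * ((n : ℝ) + δ * u) ^ (m + 1) + ξ| := by positivity
    calc δ * t * |(n : ℝ) - y| * (n : ℝ) ^ m = δ * (t * |(n : ℝ) - y| * (n : ℝ) ^ m) := by ring
      _ ≤ δ * |((m : ℝ) + 2) * t * ((n : ℝ) + δ * u) ^ (m + 1) + ξ| :=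
        mul_le_mul_of_nonneg_left (h6.trans h5) hδ.le
      _ ≤ _ := by nlinarith

theorem pow_gap {x y : ℝ} (hx : 0 ≤ x) (hy : 0 ≤ y) (m : ℕ) :
    |x - y| * x ^ m ≤ |x ^ (m + 1) - y ^ (m + 1)| := by
  rcases le_total y x with h | h
  · rw [abs_of_nonneg (by linarith), abs_of_nonneg (by linarith [pow_le_pow_left₀ hy h (m + 1)])]
    have h1 : y ^ m ≤ x ^ m := pow_le_pow_left₀ hy h m
    have h2 : y * y ^ m ≤ y * x ^ m := mul_le_mul_of_nonneg_left h1 hy
    rw [pow_succ' x, pow_succ' y]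
    linarith [sub_mul x y (x ^ m)]
  · rw [abs_of_nonpos (by linarith), abs_of_nonpos (by linarith [pow_le_pow_left₀ hx h (m + 1)])]
    have h1 : x ^ m ≤ y ^ m := pow_le_pow_left₀ hx h m
    have h2 : y * x ^ m ≤ y * y ^ m := mul_le_mul_of_nonneg_left h1 hy
    rw [pow_succ' x, pow_succ' y]
    linarith [sub_mul x y (x ^ m)]

/-- the derivative of the phase is far from zero outside of a short interval -/
theorem exists_y {t : ℝ} (ht : 0 < t) (ξ : ℝ) (m : ℕ) {R : ℝ} (hR : 0 ≤ R) :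
    ∃ y : ℝ, 0 ≤ y ∧ y ≤ R ∧ ∀ x : ℝ, 0 ≤ x → x ≤ R →
      ((m : ℝ) + 2) * t * |x - y| * x ^ m ≤ |((m : ℝ) + 2) * t * x ^ (m + 1) + ξ| := by
  have ha : 0 < ((m : ℝ) + 2) * t := by positivity
  obtain ⟨a, haa⟩ : ∃ a : ℝ, a = ((m : ℝ) + 2) * t := ⟨_, rfl⟩
  rw [← haa] at ha ⊢
  by_cases h1 : 0 ≤ ξ
  · refine ⟨0, le_rfl, hR, fun x hx _ => ?_⟩
    rw [sub_zero, abs_of_nonneg hx, abs_of_nonneg (by positivity), pow_succ']
    nlinarith
  · push Not at h1
    by_cases h2 : a * R ^ (m + 1) + ξ ≤ 0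
    · refine ⟨R, hR, le_rfl, fun x hx hxR => ?_⟩
      have h3 := pow_le_pow_left₀ hx hxR (m + 1)
      have h4 : a * x ^ (m + 1) ≤ a * R ^ (m + 1) := mul_le_mul_of_nonneg_left h3 ha.le
      rw [abs_of_nonpos (by linarith : a * x ^ (m + 1) + ξ ≤ 0)]
      have h5 := pow_gap hx hR m
      rw [abs_of_nonpos (by linarith : x ^ (m + 1) - R ^ (m + 1) ≤ 0)] at h5
      have h6 := mul_le_mul_of_nonneg_left h5 ha.le
      calc a * |x - R| * x ^ m = a * (|x - R| * x ^ m) := by ring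
        _ ≤ _ := h6
        _ ≤ _ := by linarith
    · push Not at h2
      have hc : ContinuousOn (fun x : ℝ => a * x ^ (m + 1) + ξ) (Set.Icc 0 R) := by fun_prop
      have h3 : (0 : ℝ) ∈ Set.Icc (a * (0 : ℝ) ^ (m + 1) + ξ) (a * R ^ (m + 1) + ξ) := by
        constructor
        · simp [h1.le]
        · exact h2.le
      obtain ⟨y, ⟨hy0, hyR⟩, hy⟩ := intermediate_value_Icc hR hc h3
      simp only at hy
      refine ⟨y, hy0, hyR, fun x hx _ => ?_⟩
      have h5 := mul_le_mul_of_nonneg_left (pow_gap hx hy0 m) ha.le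
      calc a * |x - y| * x ^ m = a * (|x - y| * x ^ m) := by ring
        _ ≤ _ := h5
        _ = |a * x ^ (m + 1) + ξ| := by
          rw [← abs_of_pos ha, ← abs_mul, abs_of_pos ha]
          congr 1
          linarith

/-- the sum of the reciprocals of the distances -/
theorem sum_recip {N n0 : ℕ} (h0 : n0 ≤ N + 1) :
    ∑ n ∈ Finset.Icc 1 N, 1 / (|(n : ℝ) - n0| + 1) ≤ 2 * (1 + Real.log (N + 1)) := by
  classical
  have hH : ∑ j ∈ Finset.range (N + 1), 1 / ((j : ℝ) + 1) ≤ 1 + Real.log (N + 1) := by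
    have h1 := harmonic_le_one_add_log (N + 1)
    unfold harmonic at h1
    push_cast at h1
    refine le_trans (le_of_eq ?_) h1
    refine Finset.sum_congr rfl fun j _ => ?_
    rw [one_div]
  have hgen : ∀ (S : Finset ℕ) (f : ℕ → ℕ), Set.InjOn f S → (∀ n ∈ S, f n < N + 1) →
      (∀ n ∈ S, |(n : ℝ) - n0| = f n) →
      ∑ n ∈ S, 1 / (|(n : ℝ) - n0| + 1) ≤ ∑ j ∈ Finset.range (N + 1), 1 / ((j : ℝ) + 1) := by
    intro S f hf h1 h2
    calc ∑ n ∈ S, 1 / (|(n : ℝ) - n0| + 1) = ∑ n ∈ S, (fun j : ℕ => 1 / ((j : ℝ) + 1)) (f n) :=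
          Finset.sum_congr rfl fun n hn => by simp only; rw [h2 n hn]
      _ = ∑ j ∈ S.image f, 1 / ((j : ℝ) + 1) :=
          (Finset.sum_image (f := fun j : ℕ => 1 / ((j : ℝ) + 1)) hf).symm
      _ ≤ _ := by
          refine Finset.sum_le_sum_of_subset_of_nonneg ?_ fun _ _ _ => by positivity
          intro j hj
          obtain ⟨n, hn, rfl⟩ := Finset.mem_image.1 hj
          exact Finset.mem_range.2 (h1 n hn)
  have hsplit : ∑ n ∈ Finset.Icc 1 N, 1 / (|(n : ℝ) - n0| + 1) =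
      ∑ n ∈ (Finset.Icc 1 N).filter (fun n => n0 ≤ n), 1 / (|(n : ℝ) - n0| + 1) +
      ∑ n ∈ (Finset.Icc 1 N).filter (fun n => ¬ n0 ≤ n), 1 / (|(n : ℝ) - n0| + 1) :=
    (Finset.sum_filter_add_sum_filter_not _ _ _).symm
  have hA : ∑ n ∈ (Finset.Icc 1 N).filter (fun n => n0 ≤ n), 1 / (|(n : ℝ) - n0| + 1) ≤
      ∑ j ∈ Finset.range (N + 1), 1 / ((j : ℝ) + 1) := by
    refine hgen _ (fun n => n - n0) ?_ ?_ ?_
    · intro a ha b hb hab
      simp only [coe_filter, mem_Icc, Set.mem_ofPred_eq] at ha hb hab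
      omega
    · intro n hn
      simp only [mem_filter, mem_Icc] at hn
      omega
    · intro n hn
      simp only [mem_filter, mem_Icc] at hn
      rw [Nat.cast_sub hn.2, abs_of_nonneg]
      have : (n0 : ℝ) ≤ n := by exact_mod_cast hn.2
      linarith
  have hB : ∑ n ∈ (Finset.Icc 1 N).filter (fun n => ¬ n0 ≤ n), 1 / (|(n : ℝ) - n0| + 1) ≤
      ∑ j ∈ Finset.range (N + 1), 1 / ((j : ℝ) + 1) := by
    refine hgen _ (fun n => n0 - n) ?_ ?_ ?_
    · intro a ha b hb hab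
      simp only [coe_filter, mem_Icc, Set.mem_ofPred_eq] at ha hb hab
      omega
    · intro n hn
      simp only [mem_filter, mem_Icc] at hn
      omega
    · intro n hn
      simp only [mem_filter, mem_Icc] at hn
      rw [Nat.cast_sub (by omega), abs_of_nonpos]
      · ring
      · have : (n : ℝ) ≤ n0 := by exact_mod_cast (by omega : n ≤ n0)
        linarith
  rw [hsplit]
  linarith

/-- the sum of the means -/
theorem sum_mean {t ξ κ : ℝ} {m N q M : ℕ} {δ : ℕ → ℝ} (hq : 1 ≤ q) (ht : 1 / (2 * (q : ℝ)) ≤ t)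
    (hδ : ∀ n : ℕ, 1 ≤ n → (n : ℝ) ^ (-κ) ≤ δ n ∧ δ n ≤ 1) (hκ : κ ≤ m) (hM : 1 ≤ M) :
    ∑ n ∈ Finset.Icc 1 N, ‖∫ u in (0 : ℝ)..1, ee (wp (m + 2) t ξ ((n : ℝ) + δ n * u))‖ ≤
      M + (3 + 16 * q * (M : ℝ) ^ (κ - m)) * (2 * (1 + Real.log (N + 1))) := by
  classical
  have hq0 : (0 : ℝ) < q := by exact_mod_cast hq
  have ht0 : 0 < t := lt_of_lt_of_le (by positivity) ht
  have hM0 : (0 : ℝ) < M := by exact_mod_cast hM
  obtain ⟨y, hy0, hyN, hy⟩ := exists_y ht0 ξ m (R := (N : ℝ) + 1) (by positivity)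
  obtain ⟨n0, hn0⟩ : ∃ n0 : ℕ, n0 = ⌊y⌋₊ := ⟨_, rfl⟩
  have hn1 : (n0 : ℝ) ≤ y := by rw [hn0]; exact Nat.floor_le hy0
  have hn2 : y < (n0 : ℝ) + 1 := by rw [hn0]; exact Nat.lt_floor_add_one y
  have hn3 : n0 ≤ N + 1 := by
    have : (n0 : ℝ) ≤ ((N + 1 : ℕ) : ℝ) := by push_cast; linarith
    exact_mod_cast this
  obtain ⟨K, hK⟩ : ∃ K : ℝ, K = 16 * q * (M : ℝ) ^ (κ - m) := ⟨_, rfl⟩
  have hK0 : 0 ≤ K := by rw [hK]; positivity
  have key : ∀ n ∈ Finset.Icc 1 N, ‖∫ u in (0 : ℝ)..1, ee (wp (m + 2) t ξ ((n : ℝ) + δ n * u))‖ ≤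
      (if n < M then 1 else 0) + (3 + K) * (1 / (|(n : ℝ) - n0| + 1)) := by
    intro n hn
    rw [mem_Icc] at hn
    have hn1' : (1 : ℝ) ≤ n := by exact_mod_cast hn.1
    have hnp : (0 : ℝ) < n := by linarith
    have htriv : ‖∫ u in (0 : ℝ)..1, ee (wp (m + 2) t ξ ((n : ℝ) + δ n * u))‖ ≤ 1 := by
      have := intervalIntegral.norm_integral_le_of_norm_le_const (a := (0 : ℝ)) (b := 1)
        (f := fun u => ee (wp (m + 2) t ξ ((n : ℝ) + δ n * u))) (C := 1) (fun u _ => (pkgD_ee_norm _).le)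
      simpa using this
    have hpos : 0 < |(n : ℝ) - n0| + 1 := by positivity
    by_cases h1 : n < M
    · rw [if_pos h1]
      have : 0 ≤ (3 + K) * (1 / (|(n : ℝ) - n0| + 1)) := by positivity
      linarith
    · rw [if_neg h1, zero_add]
      push Not at h1
      by_cases h2 : |(n : ℝ) - n0| ≤ 2
      · refine htriv.trans ?_
        rw [mul_one_div, le_div_iff₀ hpos]
        linarith
      · push Not at h2
        have h3 : 3 ≤ |(n : ℝ) - n0| := by
          have h4 : (2 : ℤ) < |(n : ℤ) - n0| := by exact_mod_cast h2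
          have h5 : (3 : ℤ) ≤ |(n : ℤ) - n0| := h4
          exact_mod_cast h5
        have h4 : |(n : ℝ) - n0| - 1 ≤ |(n : ℝ) - y| := by
          have h5 : |(n : ℝ) - n0| ≤ |(n : ℝ) - y| + |y - n0| := abs_sub_le _ _ _
          rw [abs_of_nonneg (by linarith : 0 ≤ y - (n0 : ℝ))] at h5
          linarith
        have hd := hδ n hn.1
        have hδ0 : 0 < δ n := lt_of_lt_of_le (by positivity) hd.1
        have h5 := mean_term (m := m) (ξ := ξ) ht0 hδ0 hd.2 hn.1 (y := y) (fun x hx1 hx2 => hy x (by linarith) (by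
          have : (n : ℝ) ≤ N := by exact_mod_cast hn.2
          linarith)) (by linarith)
        refine h5.trans ?_
        have h6 : 0 < |(n : ℝ) - y| := by linarith
        have h7 : (n : ℝ) ^ (-κ) * (1 / (2 * (q : ℝ))) * ((|(n : ℝ) - n0| + 1) / 2) * (n : ℝ) ^ m ≤
            δ n * t * |(n : ℝ) - y| * (n : ℝ) ^ m := by
          have : (|(n : ℝ) - n0| + 1) / 2 ≤ |(n : ℝ) - y| := by linarith
          have h8 := hd.1
          gcongr
        have h8 : 0 < (n : ℝ) ^ (-κ) * (1 / (2 * (q : ℝ))) * ((|(n : ℝ) - n0| + 1) / 2) * (n : ℝ) ^ m := by positivity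
        calc 4 / (δ n * t * |(n : ℝ) - y| * (n : ℝ) ^ m)
            ≤ 4 / ((n : ℝ) ^ (-κ) * (1 / (2 * (q : ℝ))) * ((|(n : ℝ) - n0| + 1) / 2) * (n : ℝ) ^ m) :=
              div_le_div_of_nonneg_left (by norm_num) h8 h7
          _ = 16 * q * (n : ℝ) ^ (κ - m) * (1 / (|(n : ℝ) - n0| + 1)) := by
              rw [Real.rpow_sub hnp, Real.rpow_neg hnp.le, Real.rpow_natCast]
              have h9 : (0 : ℝ) < (n : ℝ) ^ κ := by positivity
              field_simp
              norm_num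
          _ ≤ K * (1 / (|(n : ℝ) - n0| + 1)) := by
              refine mul_le_mul_of_nonneg_right ?_ (by positivity)
              rw [hK]
              refine mul_le_mul_of_nonneg_left ?_ (by positivity)
              exact Real.rpow_le_rpow_of_nonpos hM0 (by exact_mod_cast h1) (by linarith)
          _ ≤ (3 + K) * (1 / (|(n : ℝ) - n0| + 1)) := by
              refine mul_le_mul_of_nonneg_right (by linarith) (by positivity)
  refine (Finset.sum_le_sum key).trans ?_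
  rw [Finset.sum_add_distrib, ← Finset.mul_sum, ← hK]
  refine add_le_add ?_ (mul_le_mul_of_nonneg_left (sum_recip hn3) (by positivity))
  rw [Finset.sum_ite, Finset.sum_const_zero, add_zero, Finset.sum_const, nsmul_eq_mul, mul_one]
  have h1 : ((Finset.Icc 1 N).filter (fun n => n < M)) ⊆ Finset.range M := by
    intro n hn
    rw [mem_filter] at hn
    exact mem_range.2 hn.2
  have h2 := Finset.card_le_card h1
  rw [card_range] at h2
  exact_mod_cast h2

end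

end Pool.Agent.U803.MW
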