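import Pool.Agent.U160.VP.Stm
import Pool.Agent.U160.VP.PkgF3

/-!
# Sums of independent bounded variables, many families at once
-/

set_option autoImplicit false

namespace Pool.Agent.U803.MW

open MeasureTheory ProbabilityTheory Finset
open Pool.Agent.U160.VP

noncomputable section

variable {Ω : Type} [MeasurableSpace Ω] {μ : Measure Ω} [IsProbabilityMeasure μ] {X : ℕ → Ω → ℝ}

theorem norm_mean_le {f : Ω → ℂ} (hf : ∀ ω, ‖f ω‖ ≤ 1) : ‖∫ ω, f ω ∂μ‖ ≤ 1 := by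
  have h := norm_integral_le_of_norm_le_const (μ := μ) (C := 1) (Filter.Eventually.of_forall hf)
  simpa using h

theorem sum_dev_le {φ : ℕ → ℝ → ℂ} (hb : ∀ n x, ‖φ n x‖ ≤ 1) (N : ℕ) (ω : Ω) :
    ‖∑ n ∈ Finset.Icc 1 N, (φ n (X n ω) - ∫ ω', φ n (X n ω') ∂μ)‖ ≤ 2 * N := by
  refine (norm_sum_le _ _).trans ?_
  have : ∀ n ∈ Finset.Icc 1 N, ‖φ n (X n ω) - ∫ ω', φ n (X n ω') ∂μ‖ ≤ 2 := by
    intro n _
    refine (norm_sub_le _ _).trans ?_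
    linarith [hb n (X n ω), norm_mean_le (μ := μ) (f := fun ω' => φ n (X n ω')) (fun ω' => hb n _)]
  refine (sum_le_card_nsmul _ _ _ this).trans (le_of_eq ?_)
  rw [Nat.card_Icc, nsmul_eq_mul, mul_comm]
  simp

/-- one deviation is rarely large -/
theorem rare (hX : ∀ n, Measurable (X n)) (hi : iIndepFun X μ) (m : ℕ) : ∃ C : ℝ, 0 < C ∧
    ∀ φ : ℕ → ℝ → ℂ, (∀ n, Measurable (φ n)) → (∀ n x, ‖φ n x‖ ≤ 1) → ∀ N : ℕ, 1 ≤ N → ∀ ε : ℝ, 0 < ε →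
    μ {ω | (N : ℝ) ^ (1 / 2 + ε) < ‖∑ n ∈ Finset.Icc 1 N, (φ n (X n ω) - ∫ ω', φ n (X n ω') ∂μ)‖} ≤
      ENNReal.ofReal (C * (N : ℝ) ^ (-(2 * ε * m))) := by
  obtain ⟨C, hC, h⟩ := t_F3 m
  refine ⟨C, hC, fun φ hφ hb N hN ε hε => ?_⟩
  have hN0 : (0 : ℝ) < N := by exact_mod_cast hN
  have h1 := h Ω μ (fun n ω => φ n (X n ω)) (fun n => (hφ n).comp (hX n)) (hi.comp φ hφ)
    (fun n ω => hb n _) (Finset.Icc 1 N)
  rw [Nat.card_Icc, Nat.add_sub_cancel] at h1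
  obtain ⟨D, hD⟩ : ∃ D : Ω → ℝ, D = fun ω => ‖∑ n ∈ Finset.Icc 1 N, (φ n (X n ω) - ∫ ω', φ n (X n ω') ∂μ)‖ := ⟨_, rfl⟩
  have hDm : Measurable D := by
    rw [hD]
    refine Measurable.norm (Finset.measurable_sum _ fun n _ => Measurable.sub_const ?_ _)
    exact (hφ n).comp (hX n)
  have hD0 : ∀ ω, 0 ≤ D ω := fun ω => by rw [hD]; exact norm_nonneg _
  have hDb : ∀ ω, D ω ≤ 2 * N := fun ω => by rw [hD]; exact sum_dev_le hb N ω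
  have hD' : ∀ ω, ‖∑ n ∈ Finset.Icc 1 N, (φ n (X n ω) - ∫ ω', φ n (X n ω') ∂μ)‖ = D ω := fun ω => by rw [hD]
  simp only [hD'] at h1 ⊢
  have hint : Integrable (fun ω => D ω ^ (2 * m)) μ := by
    refine Integrable.of_bound (hDm.pow_const _).aestronglyMeasurable
      ((2 * (N : ℝ)) ^ (2 * m)) (Filter.Eventually.of_forall fun ω => ?_)
    rw [Real.norm_of_nonneg (pow_nonneg (hD0 ω) _)]
    exact pow_le_pow_left₀ (hD0 ω) (hDb ω) _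
  have h2 := mul_meas_ge_le_integral_of_nonneg (Filter.Eventually.of_forall fun ω => pow_nonneg (hD0 ω) (2 * m)) hint
    (((N : ℝ) ^ (1 / 2 + ε)) ^ (2 * m))
  have h3 : μ.real {ω | (N : ℝ) ^ (1 / 2 + ε) < D ω} ≤
      μ.real {ω | ((N : ℝ) ^ (1 / 2 + ε)) ^ (2 * m) ≤ D ω ^ (2 * m)} := by
    refine measureReal_mono ?_
    intro ω hω
    have hω' : (N : ℝ) ^ (1 / 2 + ε) < D ω := hω
    exact pow_le_pow_left₀ (by positivity) hω'.le _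
  have h4 : (0 : ℝ) < ((N : ℝ) ^ (1 / 2 + ε)) ^ (2 * m) := by positivity
  have h5 : ((N : ℝ) ^ (1 / 2 + ε)) ^ (2 * m) = (N : ℝ) ^ m * (N : ℝ) ^ (2 * ε * m) := by
    rw [← Real.rpow_natCast, ← Real.rpow_mul hN0.le, ← Real.rpow_natCast (N : ℝ) m, ← Real.rpow_add hN0]
    congr 1
    push_cast
    ring
  have h7 : μ.real {ω | (N : ℝ) ^ (1 / 2 + ε) < D ω} ≤ C * (N : ℝ) ^ (-(2 * ε * m)) := by
    have h8 : ((N : ℝ) ^ (1 / 2 + ε)) ^ (2 * m) *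
        μ.real {ω | (N : ℝ) ^ (1 / 2 + ε) < D ω} ≤ C * (N : ℝ) ^ m :=
      (mul_le_mul_of_nonneg_left h3 h4.le).trans (h2.trans h1)
    rw [Real.rpow_neg hN0.le, ← div_eq_mul_inv, le_div_iff₀ (by positivity)]
    have h9 : (0 : ℝ) < (N : ℝ) ^ m := by positivity
    rw [h5] at h8
    have h10 : (N : ℝ) ^ m * (μ.real {ω | (N : ℝ) ^ (1 / 2 + ε) < D ω} *
        (N : ℝ) ^ (2 * ε * m)) ≤ (N : ℝ) ^ m * C := by
      calc _ = (N : ℝ) ^ m * (N : ℝ) ^ (2 * ε * m) *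
          μ.real {ω | (N : ℝ) ^ (1 / 2 + ε) < D ω} := by ring
        _ ≤ C * (N : ℝ) ^ m := h8
        _ = _ := by ring
    exact le_of_mul_le_mul_left h10 h9
  rw [← ENNReal.ofReal_toReal (measure_ne_top μ _)]
  exact ENNReal.ofReal_le_ofReal h7

/-- almost surely all deviations of polynomially many families are small -/
theorem ae_family (hX : ∀ n, Measurable (X n)) (hi : iIndepFun X μ) {ι : Type} (T : ℕ → Finset ι) (C0 : ℝ)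
    (hC0 : 0 ≤ C0) (B0 : ℕ) (hT : ∀ N : ℕ, 1 ≤ N → ((T N).card : ℝ) ≤ C0 * (N : ℝ) ^ B0)
    (φ : ℕ → ι → ℕ → ℝ → ℂ) (hφ : ∀ N i n, Measurable (φ N i n)) (hb : ∀ N i n x, ‖φ N i n x‖ ≤ 1)
    {ε : ℝ} (hε : 0 < ε) :
    ∀ᵐ ω ∂μ, ∀ᶠ N : ℕ in Filter.atTop, ∀ i ∈ T N,
      ‖∑ n ∈ Finset.Icc 1 N, (φ N i n (X n ω) - ∫ ω', φ N i n (X n ω') ∂μ)‖ ≤ (N : ℝ) ^ (1 / 2 + ε) := by
  classical
  obtain ⟨m, hm⟩ : ∃ m : ℕ, (B0 + 2 : ℝ) ≤ 2 * ε * m := by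
    obtain ⟨m, hm⟩ := exists_nat_ge ((B0 + 2 : ℝ) / (2 * ε))
    refine ⟨m, ?_⟩
    rw [div_le_iff₀ (by positivity)] at hm
    linarith
  obtain ⟨C, hC, hr⟩ := rare (μ := μ) hX hi m
  obtain ⟨E, hE⟩ : ∃ E : ℕ → Set Ω, E = fun N => ⋃ i ∈ T N,
    {ω | (N : ℝ) ^ (1 / 2 + ε) < ‖∑ n ∈ Finset.Icc 1 N, (φ N i n (X n ω) - ∫ ω', φ N i n (X n ω') ∂μ)‖} := ⟨_, rfl⟩
  have hmeas : ∀ N : ℕ, 1 ≤ N → μ (E N) ≤ ENNReal.ofReal (C * C0 * (1 / (N : ℝ) ^ 2)) := by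
    intro N hN
    have hN1 : (1 : ℝ) ≤ N := by exact_mod_cast hN
    have hN0 : (0 : ℝ) < N := by linarith
    rw [hE]
    refine (measure_biUnion_finset_le _ _).trans ?_
    have h1 : ∀ i ∈ T N, μ {ω | (N : ℝ) ^ (1 / 2 + ε) <
        ‖∑ n ∈ Finset.Icc 1 N, (φ N i n (X n ω) - ∫ ω', φ N i n (X n ω') ∂μ)‖} ≤
        ENNReal.ofReal (C * (N : ℝ) ^ (-(2 * ε * m))) := by
      intro i _
      exact hr (φ N i) (hφ N i) (hb N i) N hN ε hε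
    refine (sum_le_card_nsmul _ _ _ h1).trans ?_
    rw [nsmul_eq_mul, ← ENNReal.ofReal_natCast, ← ENNReal.ofReal_mul (by positivity)]
    refine ENNReal.ofReal_le_ofReal ?_
    have h2 : (N : ℝ) ^ (-(2 * ε * m)) ≤ (N : ℝ) ^ (-(B0 + 2 : ℝ)) :=
      Real.rpow_le_rpow_of_exponent_le hN1 (by linarith)
    calc ((T N).card : ℝ) * (C * (N : ℝ) ^ (-(2 * ε * m)))
        ≤ (C0 * (N : ℝ) ^ B0) * (C * (N : ℝ) ^ (-(B0 + 2 : ℝ))) :=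
          mul_le_mul (hT N hN) (mul_le_mul_of_nonneg_left h2 hC.le) (by positivity) (by positivity)
      _ = C * C0 * ((N : ℝ) ^ (B0 : ℝ) * (N : ℝ) ^ (-(B0 + 2 : ℝ))) := by rw [Real.rpow_natCast]; ring
      _ = _ := by
          rw [← Real.rpow_add hN0]
          congr 1
          rw [show (B0 : ℝ) + -(B0 + 2 : ℝ) = -(2 : ℝ) by ring, Real.rpow_neg hN0.le, one_div]
          norm_num
  have hsum : (∑' N, μ (E (N + 1))) ≠ ⊤ := by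
    have hs : Summable fun N : ℕ => C * C0 * (1 / ((N + 1 : ℕ) : ℝ) ^ 2) :=
      (((summable_nat_add_iff 1).2 (Real.summable_one_div_nat_pow.2 one_lt_two))).mul_left _
    refine ne_top_of_le_ne_top hs.tsum_ofReal_ne_top (ENNReal.tsum_le_tsum fun N => hmeas (N + 1) (by omega))
  filter_upwards [ae_eventually_notMem hsum] with ω hω
  rw [Filter.eventually_atTop] at hω ⊢
  obtain ⟨N₀, hN₀⟩ := hω
  refine ⟨N₀ + 1, fun N hN => ?_⟩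
  obtain ⟨M, rfl⟩ : ∃ M, N = M + 1 := ⟨N - 1, by omega⟩
  have h1 := hN₀ M (by omega)
  intro i hi
  by_contra hcon
  push Not at hcon
  apply h1
  rw [hE]
  simp only [Set.mem_iUnion]
  exact ⟨i, hi, hcon⟩

end

end Pool.Agent.U803.MW
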